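import Mathlib
import Pool.Agent.TH314.ET.Kron

/-!
# Order `h`: the large sieve for the representation function
-/

set_option autoImplicit false

open Finset Filter Topology

namespace Pool.Agent.TH314.ETH

open Pool.Agent.Helper112 Pool.Agent.TH314.ET

/-- tuples -/
def tup (F : Finset ℕ) (h : ℕ) : Finset (Fin h → ℕ) := Fintype.piFinset (fun _ => F)

/-- ordered representations -/
def RF (F : Finset ℕ) (h n : ℕ) : ℕ := ((tup F h).filter (fun v => ∑ i, v i = n)).card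

/-- unordered representations of `n` as a sum of `h` elements of `A` -/
def msets (A : Set ℕ) (h n : ℕ) : Set (Multiset ℕ) :=
  {s : Multiset ℕ | Multiset.card s = h ∧ (∀ a ∈ s, a ∈ A) ∧ s.sum = n}

/-- the unordered representation function of order `h` -/
noncomputable def rep (A : Set ℕ) (h n : ℕ) : ℕ := (msets A h n).ncard

/-- the multiset of entries of a tuple -/
def toM {h : ℕ} (v : Fin h → ℕ) : Multiset ℕ := (Finset.univ : Finset (Fin h)).val.map v

lemma toM_card {h : ℕ} (v : Fin h → ℕ) : Multiset.card (toM v) = h := by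
  unfold toM
  rw [Multiset.card_map, Finset.card_val, Finset.card_univ, Fintype.card_fin]

lemma toM_sum {h : ℕ} (v : Fin h → ℕ) : (toM v).sum = ∑ i, v i := rfl

lemma mem_toM {h : ℕ} (v : Fin h → ℕ) (a : ℕ) : a ∈ toM v ↔ ∃ i, v i = a := by
  unfold toM
  rw [Multiset.mem_map]
  constructor
  · rintro ⟨i, _, hi⟩
    exact ⟨i, hi⟩
  · rintro ⟨i, hi⟩
    exact ⟨i, Finset.mem_univ i, hi⟩

lemma msets_finite (A : Set ℕ) (h n : ℕ) : (msets A h n).Finite := by
  have hsub : msets A h n ⊆ toM '' (((tup (Finset.range (n + 1)) h) : Finset (Fin h → ℕ)) :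
      Set (Fin h → ℕ)) := by
    rintro s ⟨h1, _, h3⟩
    obtain ⟨l, rfl⟩ : ∃ l : List ℕ, (l : Multiset ℕ) = s := ⟨s.toList, Multiset.coe_toList s⟩
    have hl : l.length = h := by simpa using h1
    subst hl
    refine ⟨fun i => l.get i, ?_, ?_⟩
    · rw [Finset.mem_coe, tup, Fintype.mem_piFinset]
      intro i
      rw [Finset.mem_range, Nat.lt_succ_iff, ← h3]
      exact Multiset.le_sum_of_mem (Multiset.mem_coe.2 (List.get_mem l i))
    · unfold toM
      have : ((Finset.univ : Finset (Fin l.length)).val.map (fun i => l.get i)) =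
          (((List.finRange l.length).map (fun i => l.get i) : List ℕ) : Multiset ℕ) := rfl
      rw [this]
      exact congrArg _ (List.map_get_finRange l)
  exact Set.Finite.subset (Set.Finite.image _ (Finset.finite_toSet _)) hsub

/-- ordered versus unordered representations -/
lemma RF_le {A : Set ℕ} {F : Finset ℕ} (hT : ∀ a ∈ F, a ∈ A) (h n : ℕ) :
    RF F h n ≤ h ^ h * rep A h n := by
  classical
  unfold RF rep
  set G := (tup F h).filter (fun v => ∑ i, v i = n) with hG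
  set B : Finset (Multiset ℕ) := (msets_finite A h n).toFinset with hB
  have hBcard : (msets A h n).ncard = B.card := by
    rw [hB, Set.ncard_eq_toFinset_card _ (msets_finite A h n)]
  have hmaps : ∀ v ∈ G, toM v ∈ B := by
    intro v hv
    rw [hG, Finset.mem_filter, tup, Fintype.mem_piFinset] at hv
    rw [hB, Set.Finite.mem_toFinset]
    refine ⟨toM_card v, ?_, ?_⟩
    · intro a ha
      rw [mem_toM] at ha
      obtain ⟨i, rfl⟩ := ha
      exact hT _ (hv.1 i)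
    · rw [toM_sum]
      exact hv.2
  rw [hBcard, mul_comm]
  have hfib : ∀ s ∈ B, (G.filter (fun v => toM v = s)).card ≤ h ^ h := by
    intro s hs
    rw [hB, Set.Finite.mem_toFinset] at hs
    have hsub : G.filter (fun v => toM v = s) ⊆ Fintype.piFinset (fun _ : Fin h => s.toFinset) := by
      intro v hv
      rw [Finset.mem_filter] at hv
      rw [Fintype.mem_piFinset]
      intro i
      rw [Multiset.mem_toFinset, ← hv.2, mem_toM]
      exact ⟨i, rfl⟩
    refine le_trans (Finset.card_le_card hsub) ?_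
    rw [Fintype.card_piFinset_const]
    apply Nat.pow_le_pow_left
    calc s.toFinset.card ≤ Multiset.card s := Multiset.toFinset_card_le s
      _ = h := hs.1
  calc G.card = ∑ s ∈ B, (G.filter (fun v => toM v = s)).card :=
        Finset.card_eq_sum_card_fiberwise hmaps
    _ ≤ ∑ s ∈ B, h ^ h := Finset.sum_le_sum hfib
    _ = B.card * h ^ h := by rw [Finset.sum_const, smul_eq_mul]

/-- the `h`-th power of the generating function -/
theorem Sf_ind_pow {F : Finset ℕ} {N : ℕ} (hF : F ⊆ Icc 1 N) {h : ℕ} (hh : 1 ≤ h) (θ : ℝ) :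
    Sf (ind F) θ ^ h = ∑ n ∈ Icc 1 (h * N), (RF F h n : ℂ) * ee (n * θ) := by
  classical
  rw [Sf_ind, Finset.sum_pow']
  have hmaps : ∀ v ∈ Fintype.piFinset (fun _ : Fin h => F), ∑ i, v i ∈ Icc 1 (h * N) := by
    intro v hv
    rw [Fintype.mem_piFinset] at hv
    have h1 : ∀ i, 1 ≤ v i ∧ v i ≤ N := fun i => mem_Icc.1 (hF (hv i))
    rw [mem_Icc]
    constructor
    · calc 1 ≤ v ⟨0, by omega⟩ := (h1 _).1
        _ ≤ ∑ i, v i := Finset.single_le_sum (f := v) (fun _ _ => Nat.zero_le _) (mem_univ _)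
    · calc ∑ i, v i ≤ ∑ _i : Fin h, N := Finset.sum_le_sum fun i _ => (h1 i).2
        _ = h * N := by simp
  rw [← Finset.sum_fiberwise_of_maps_to (t := Icc 1 (h * N)) (g := fun v : Fin h → ℕ => ∑ i, v i)
    hmaps]
  refine Finset.sum_congr rfl fun n _ => ?_
  have h1 : ∀ v ∈ (Fintype.piFinset (fun _ : Fin h => F)).filter (fun v => ∑ i, v i = n),
      ∏ i, ee (v i * θ) = ee (n * θ) := by
    intro v hv
    rw [mem_filter] at hv
    have h2 : ∀ s : Finset (Fin h), ∏ i ∈ s, ee (v i * θ) = ee ((∑ i ∈ s, (v i : ℝ)) * θ) := by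
      intro s
      induction s using Finset.induction_on with
      | empty => simp [ls_ee_zero]
      | insert a s ha ih => rw [Finset.prod_insert ha, Finset.sum_insert ha, ih, ← ls_ee_add,
          add_mul]
    rw [h2, ← hv.2]
    push_cast
    rfl
  rw [Finset.sum_congr rfl h1, Finset.sum_const, nsmul_eq_mul]
  rfl

/-- the large sieve for separated points -/
theorem moment_sep {F : Finset ℕ} {N : ℕ} (hF : F ⊆ Icc 1 N) {h : ℕ} (hh : 1 ≤ h) (K : ℕ)
    (hK : 1 ≤ K) (Z : Finset ℝ) (hZ : ∀ r ∈ Z, ∀ s ∈ Z, r ≠ s → lsSep K (s - r)) :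
    ∑ x ∈ Z, ‖Sf (ind F) x‖ ^ (2 * h) ≤
      6 * (h * N + (K : ℝ)) * ∑ n ∈ Icc 1 (h * N), (RF F h n : ℝ) ^ 2 := by
  classical
  have hls := ls_general Z (fun x : ℝ => x) K (h * N) hK hZ (fun n => (RF F h n : ℂ))
  push_cast at hls
  have h1 : ∑ n ∈ Icc 1 (h * N), ‖(RF F h n : ℂ)‖ ^ 2 = ∑ n ∈ Icc 1 (h * N), (RF F h n : ℝ) ^ 2 := by
    refine Finset.sum_congr rfl fun n _ => ?_
    rw [Complex.norm_natCast]
  rw [h1] at hls
  have h2 : ∑ x ∈ Z, ‖Sf (ind F) x‖ ^ (2 * h) =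
      ∑ x ∈ Z, ‖∑ n ∈ Icc 1 (h * N), (RF F h n : ℂ) * ee (n * x)‖ ^ 2 := by
    refine Finset.sum_congr rfl fun x _ => ?_
    rw [← Sf_ind_pow hF hh, norm_pow, ← pow_mul, mul_comm]
  rw [h2]
  exact hls

/-- a separation constant for a finite set of frequencies -/
theorem exists_sep (R : Finset ℝ) (hR : ∀ x ∈ R, 0 ≤ x ∧ x < 1) :
    ∃ D : ℕ, 1 ≤ D ∧ ∀ r ∈ R, ∀ s ∈ R, r ≠ s → lsSep D (s - r) := by
  classical
  have h1 : ∀ x : ℝ × ℝ, ∃ D : ℕ, 1 ≤ D ∧ (x.1 ∈ R → x.2 ∈ R → x.1 ≠ x.2 →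
      ∀ E : ℕ, D ≤ E → lsSep E (x.2 - x.1)) := by
    rintro ⟨r, s⟩
    by_cases h : r ∈ R ∧ s ∈ R ∧ r ≠ s
    · obtain ⟨hr, hs, hne⟩ := h
      have hf0 : 0 < Int.fract (s - r) := by
        rw [Int.fract_pos]
        intro h2
        obtain ⟨h3, h4⟩ := hR r hr
        obtain ⟨h5, h6⟩ := hR s hs
        have h7 : |s - r| < 1 := by rw [abs_lt]; constructor <;> linarith
        rw [h2] at h7
        have h8 : |⌊s - r⌋| < 1 := by exact_mod_cast h7
        rw [Int.abs_lt_one_iff] at h8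
        rw [h8, Int.cast_zero] at h2
        exact hne (by linarith)
      have hf1 : Int.fract (s - r) < 1 := Int.fract_lt_one _
      set δ := min (Int.fract (s - r)) (1 - Int.fract (s - r)) with hδ
      have hδ0 : 0 < δ := lt_min hf0 (by linarith)
      obtain ⟨D, hD⟩ := exists_nat_gt (1 / δ)
      refine ⟨D + 1, by omega, fun _ _ _ E hE => ?_⟩
      have hE' : (D : ℝ) + 1 ≤ E := by exact_mod_cast hE
      have hE0 : (0 : ℝ) < E := by
        have : (0 : ℝ) ≤ D := Nat.cast_nonneg _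
        linarith
      have h2 : 1 / (E : ℝ) ≤ δ := by
        rw [div_le_iff₀ hE0]
        rw [div_lt_iff₀ hδ0] at hD
        nlinarith
      unfold lsSep
      constructor
      · exact h2.trans (min_le_left _ _)
      · have := h2.trans (min_le_right (Int.fract (s - r)) (1 - Int.fract (s - r)))
        linarith
    · refine ⟨1, le_refl _, fun hr hs hne => ?_⟩
      exact absurd ⟨hr, hs, hne⟩ h
  choose D hD using h1
  refine ⟨(∑ x ∈ R ×ˢ R, D x) + 1, by omega, fun r hr s hs hne => ?_⟩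
  refine (hD (r, s)).2 hr hs hne _ ?_
  have h2 : D (r, s) ≤ ∑ x ∈ R ×ˢ R, D x :=
    Finset.single_le_sum (f := D) (fun _ _ => Nat.zero_le _) (mem_product.2 ⟨hr, hs⟩)
  omega

/-! ### Hypotheses -/

/-- at least `c N ^ (1 / h)` elements up to `N` for infinitely many `N` -/
def Thick (A : Set ℕ) (h : ℕ) : Prop :=
  ∃ c : ℝ, 0 < c ∧ ∃ᶠ N : ℕ in atTop, c * N ≤ ((A ∩ Set.Icc 1 N).ncard : ℝ) ^ h

/-- at least `c N ^ (1 / h)` elements up to `N` for all large `N` -/
def ThickAll (A : Set ℕ) (h : ℕ) : Prop :=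
  ∃ c : ℝ, 0 < c ∧ ∀ᶠ N : ℕ in atTop, c * N ≤ ((A ∩ Set.Icc 1 N).ncard : ℝ) ^ h

/-- the representation function of order `h` is bounded in mean square -/
def MeanSq (A : Set ℕ) (h : ℕ) : Prop :=
  ∃ B : ℝ, ∀ᶠ N : ℕ in atTop, ∑ n ∈ range N, (rep A h n : ℝ) ^ 2 ≤ B * N

theorem thick_of_all {A : Set ℕ} {h : ℕ} (hA : ThickAll A h) : Thick A h := by
  obtain ⟨c, hc, h1⟩ := hA
  exact ⟨c, hc, h1.frequently⟩

theorem energy_le (A : Set ℕ) (h N : ℕ) :
    ∑ n ∈ Icc 1 (h * N), (RF (seg A N) h n : ℝ) ^ 2 ≤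
      ((h : ℝ) ^ h) ^ 2 * ∑ n ∈ range (h * N + 1), (rep A h n : ℝ) ^ 2 := by
  rw [Finset.mul_sum]
  refine (Finset.sum_le_sum fun n _ => ?_).trans
    (Finset.sum_le_sum_of_subset_of_nonneg
      (f := fun n : ℕ => ((h : ℝ) ^ h) ^ 2 * (rep A h n : ℝ) ^ 2) ?_ fun n _ _ => by positivity)
  · have h1 : (RF (seg A N) h n : ℝ) ≤ (h : ℝ) ^ h * rep A h n := by
      exact_mod_cast RF_le (fun a ha => (mem_seg.1 ha).2) h n
    rw [← mul_pow]
    exact pow_le_pow_left₀ (Nat.cast_nonneg _) h1 2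
  · intro n hn
    rw [mem_Icc] at hn
    rw [mem_range]
    omega

/-- a uniform form of the mean square hypothesis -/
theorem meanSq_bound {A : Set ℕ} {h : ℕ} (hh : 1 ≤ h) (hr : MeanSq A h) :
    ∃ B : ℝ, 0 < B ∧ ∃ N₁ : ℕ, ∀ N, N₁ ≤ N → 1 ≤ N →
      ∑ n ∈ Icc 1 (h * N), (RF (seg A N) h n : ℝ) ^ 2 ≤ B * N ∧
      ((h : ℝ) ^ h) ^ 2 * ∑ n ∈ range (h * N + 1), (rep A h n : ℝ) ^ 2 ≤ B * N := by
  obtain ⟨B, hB⟩ := hr
  obtain ⟨N₁, hN₁⟩ := eventually_atTop.1 hB
  have hh' : (1 : ℝ) ≤ h := by exact_mod_cast hh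
  set B' := max B 1 with hB'
  have hB1 : 0 < B' := lt_of_lt_of_le one_pos (le_max_right _ _)
  refine ⟨((h : ℝ) ^ h) ^ 2 * (B' * (2 * h)), by positivity, N₁, fun N hN hN1 => ?_⟩
  have hNN : N ≤ h * N := Nat.le_mul_of_pos_left N hh
  have h1 := hN₁ (h * N + 1) (by omega)
  have h2 : (1 : ℝ) ≤ N := by exact_mod_cast hN1
  push_cast at h1
  have h3 : B * (h * (N : ℝ) + 1) ≤ B' * (h * (N : ℝ) + 1) :=
    mul_le_mul_of_nonneg_right (le_max_left _ _) (by positivity)
  have h4 : B' * (h * (N : ℝ) + 1) ≤ B' * (2 * h * N) := by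
    apply mul_le_mul_of_nonneg_left _ hB1.le
    nlinarith
  have h5 : ∑ n ∈ range (h * N + 1), (rep A h n : ℝ) ^ 2 ≤ B' * (2 * h) * N := by linarith
  have h6 : ((h : ℝ) ^ h) ^ 2 * ∑ n ∈ range (h * N + 1), (rep A h n : ℝ) ^ 2 ≤
      ((h : ℝ) ^ h) ^ 2 * (B' * (2 * h)) * N := by
    rw [mul_assoc]
    exact mul_le_mul_of_nonneg_left h5 (by positivity)
  exact ⟨(energy_le A h N).trans h6, h6⟩

end Pool.Agent.TH314.ETH
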