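import Mathlib
import Pool.Agent.TH314.ETH.Base
import Pool.Agent.TH314.ET.UDim

/-!
# Order `h`: the exceptional sets
-/

set_option autoImplicit false

open Finset Filter Topology

namespace Pool.Agent.TH314.ETH

open Pool.Agent.Helper112 Pool.Agent.TH314.ET

/-- the large spectrum is covered by few short intervals -/
theorem spectrum_cover {F : Finset ℕ} {N : ℕ} (hN : 1 ≤ N) (hF : F ⊆ Icc 1 N) {h : ℕ}
    (hh : 1 ≤ h) {ε : ℝ} (hε : 0 < ε) (hF0 : F.Nonempty) (J : ℕ)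
    (hJ : 6 * (h * N + (N : ℝ)) * ∑ n ∈ Icc 1 (h * N), (RF F h n : ℝ) ^ 2 ≤
      J * (ε * F.card) ^ (2 * h)) :
    ∃ C : Finset ℝ, C.card ≤ 3 * J ∧ ∀ x : ℝ, 0 ≤ x → x < 1 → ε * F.card ≤ ‖Sf (ind F) x‖ →
      ∃ c ∈ C, |x - c| ≤ 1 / N := by
  classical
  have hc : (0 : ℝ) < F.card := by exact_mod_cast Finset.card_pos.2 hF0
  set Good : Finset ℝ → Prop := fun Z => (∀ x ∈ Z, 0 ≤ x ∧ x < 1 ∧ ε * F.card ≤ ‖Sf (ind F) x‖) ∧
    ∀ r ∈ Z, ∀ s ∈ Z, r ≠ s → lsSep N (s - r) with hGood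
  have hbound : ∀ Z, Good Z → Z.card ≤ J := by
    intro Z hZ
    have h1 := moment_sep hF hh N hN Z hZ.2
    have h2 : (Z.card : ℝ) * (ε * F.card) ^ (2 * h) ≤ ∑ x ∈ Z, ‖Sf (ind F) x‖ ^ (2 * h) := by
      rw [← nsmul_eq_mul, ← Finset.sum_const]
      exact Finset.sum_le_sum fun x hx => pow_le_pow_left₀ (by positivity) (hZ.1 x hx).2.2 _
    have h3 : (Z.card : ℝ) * (ε * F.card) ^ (2 * h) ≤ J * (ε * F.card) ^ (2 * h) :=
      h2.trans (h1.trans hJ)
    have h4 : (Z.card : ℝ) ≤ J := le_of_mul_le_mul_right h3 (by positivity)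
    exact_mod_cast h4
  obtain ⟨Z, hZ, hmax⟩ : ∃ Z, Good Z ∧ ∀ Z', Good Z' → Z'.card ≤ Z.card := by
    have hne : ∃ m, ∃ Z, Good Z ∧ Z.card = m := ⟨0, ∅, ⟨by simp, by simp⟩, rfl⟩
    have hb : ∀ m, (∃ Z, Good Z ∧ Z.card = m) → m ≤ J := by
      rintro m ⟨Z, h1, rfl⟩
      exact hbound Z h1
    set m := Nat.findGreatest (fun m => ∃ Z, Good Z ∧ Z.card = m) J with hm
    obtain ⟨m₀, hm₀⟩ := hne
    have hP : ∃ Z, Good Z ∧ Z.card = m :=
      Nat.findGreatest_spec (P := fun m => ∃ Z, Good Z ∧ Z.card = m) (hb m₀ hm₀) hm₀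
    obtain ⟨Z, h1, h2⟩ := hP
    refine ⟨Z, h1, fun Z' h3 => ?_⟩
    rw [h2]
    exact Nat.le_findGreatest (hbound Z' h3) ⟨Z', h3, rfl⟩
  refine ⟨Z ∪ (Z.image (fun z => z + 1) ∪ Z.image (fun z => z - 1)), ?_, ?_⟩
  · have h1 := Finset.card_union_le Z (Z.image (fun z => z + 1) ∪ Z.image (fun z => z - 1))
    have h2 := Finset.card_union_le (Z.image (fun z => z + 1)) (Z.image (fun z => z - 1))
    have h3 : (Z.image (fun z => z + 1)).card ≤ Z.card := Finset.card_image_le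
    have h4 : (Z.image (fun z => z - 1)).card ≤ Z.card := Finset.card_image_le
    have h5 := hbound Z hZ
    omega
  · intro x hx0 hx1 hx
    have key : ∃ z ∈ Z, |x - z| ≤ 1 / N ∨ |x - (z + 1)| ≤ 1 / N ∨ |x - (z - 1)| ≤ 1 / N := by
      by_cases hxZ : x ∈ Z
      · refine ⟨x, hxZ, Or.inl ?_⟩
        rw [sub_self, abs_zero]
        positivity
      · by_contra hcon
        push Not at hcon
        have hgood : Good (insert x Z) := by
          have hsep : ∀ z ∈ Z, lsSep N (x - z) := by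
            intro z hz
            by_contra h1
            have h2 := close_of_not_sep hN hx0 hx1 (hZ.1 z hz).1 (hZ.1 z hz).2.1 h1
            obtain ⟨h3, h4, h5⟩ := hcon z hz
            rcases h2 with h2 | h2 | h2
            · linarith
            · linarith
            · linarith
          refine ⟨?_, ?_⟩
          · intro y hy
            rcases Finset.mem_insert.1 hy with rfl | h
            · exact ⟨hx0, hx1, hx⟩
            · exact hZ.1 y h
          · intro r hr s hs hrs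
            rcases Finset.mem_insert.1 hr with rfl | hr'
            · rcases Finset.mem_insert.1 hs with rfl | hs'
              · exact absurd rfl hrs
              · have h1 := (lsSep_neg hN (hsep s hs')).1
                rwa [neg_sub] at h1
            · rcases Finset.mem_insert.1 hs with rfl | hs'
              · exact hsep r hr'
              · exact hZ.2 r hr' s hs' hrs
        have h1 := hmax _ hgood
        rw [Finset.card_insert_of_notMem hxZ] at h1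
        omega
    obtain ⟨z, hz, h1 | h1 | h1⟩ := key
    · exact ⟨z, mem_union_left _ hz, h1⟩
    · exact ⟨z + 1, mem_union_right _ (mem_union_left _ (mem_image_of_mem _ hz)), h1⟩
    · exact ⟨z - 1, mem_union_right _ (mem_union_right _ (mem_image_of_mem _ hz)), h1⟩

/-- few elements in short intervals -/
theorem increment (A : Set ℕ) {h : ℕ} (hh : 1 ≤ h) {M N : ℕ} (hMN : M ≤ N) :
    (((seg A N \ seg A M).card : ℝ)) ^ (2 * h) ≤
      (h * (N - M) : ℝ) *
        (((h : ℝ) ^ h) ^ 2 * ∑ n ∈ range (h * N + 1), (rep A h n : ℝ) ^ 2) := by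
  classical
  set G := seg A N \ seg A M with hG
  have hGm : ∀ a ∈ G, M < a ∧ a ≤ N ∧ a ∈ A := by
    intro a ha
    rw [hG, Finset.mem_sdiff, mem_seg, mem_seg] at ha
    obtain ⟨⟨⟨h1, h2⟩, h3⟩, h4⟩ := ha
    refine ⟨?_, h2, h3⟩
    by_contra h5
    exact h4 ⟨⟨h1, by omega⟩, h3⟩
  have h1 : G.card ^ h = ∑ n ∈ Ioc (h * M) (h * N), RF G h n := by
    unfold RF
    have h2 : (tup G h).card = G.card ^ h := by
      rw [tup, Fintype.card_piFinset_const]
    rw [← h2, Finset.card_eq_sum_card_fiberwise (f := fun v : Fin h → ℕ => ∑ i, v i)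
      (t := Ioc (h * M) (h * N))]
    intro v hv
    rw [Finset.mem_coe, tup, Fintype.mem_piFinset] at hv
    rw [Finset.mem_coe, mem_Ioc]
    constructor
    · calc h * M = ∑ _i : Fin h, M := by simp
        _ < ∑ i, v i := by
            apply Finset.sum_lt_sum_of_nonempty
            · exact ⟨⟨0, by omega⟩, mem_univ _⟩
            · exact fun i _ => (hGm _ (hv i)).1
    · calc ∑ i, v i ≤ ∑ _i : Fin h, N := Finset.sum_le_sum fun i _ => (hGm _ (hv i)).2.1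
        _ = h * N := by simp
  have h2 : (G.card : ℝ) ^ h ≤ ∑ n ∈ Ioc (h * M) (h * N), ((h : ℝ) ^ h * rep A h n : ℝ) := by
    have h3 : ((G.card ^ h : ℕ) : ℝ) = ((∑ n ∈ Ioc (h * M) (h * N), RF G h n : ℕ) : ℝ) := by
      rw [h1]
    push_cast at h3
    rw [h3]
    exact Finset.sum_le_sum fun n _ => by
      exact_mod_cast RF_le (fun a ha => (hGm a ha).2.2) h n
  have h3 : (∑ n ∈ Ioc (h * M) (h * N), ((h : ℝ) ^ h * rep A h n : ℝ)) ^ 2 ≤
      (h * (N - M) : ℝ) * ∑ n ∈ Ioc (h * M) (h * N), ((h : ℝ) ^ h * rep A h n : ℝ) ^ 2 := by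
    have h4 := sq_sum_le_card_mul_sum_sq (s := Ioc (h * M) (h * N))
      (f := fun n => ((h : ℝ) ^ h * rep A h n : ℝ))
    rw [Nat.card_Ioc, Nat.cast_sub (Nat.mul_le_mul_left _ hMN)] at h4
    push_cast at h4
    rw [mul_sub]
    exact h4
  have h4 : ∑ n ∈ Ioc (h * M) (h * N), ((h : ℝ) ^ h * rep A h n : ℝ) ^ 2 ≤
      ((h : ℝ) ^ h) ^ 2 * ∑ n ∈ range (h * N + 1), (rep A h n : ℝ) ^ 2 := by
    rw [Finset.mul_sum]
    simp_rw [mul_pow]
    apply Finset.sum_le_sum_of_subset_of_nonneg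
    · intro n hn
      rw [mem_Ioc] at hn
      rw [mem_range]
      omega
    · exact fun n _ _ => by positivity
  have hMN' : (0 : ℝ) ≤ h * (N - M) := by
    have : (M : ℝ) ≤ N := by exact_mod_cast hMN
    exact mul_nonneg (Nat.cast_nonneg _) (by linarith)
  calc (G.card : ℝ) ^ (2 * h) = ((G.card : ℝ) ^ h) ^ 2 := by rw [← pow_mul, mul_comm]
    _ ≤ (∑ n ∈ Ioc (h * M) (h * N), ((h : ℝ) ^ h * rep A h n : ℝ)) ^ 2 :=
        pow_le_pow_left₀ (by positivity) h2 2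
    _ ≤ _ := h3
    _ ≤ _ := mul_le_mul_of_nonneg_left h4 hMN'

theorem ex1_dim (A : Set ℕ) {h : ℕ} (hh : 1 ≤ h) (hA : ThickAll A h) (hr : MeanSq A h) {ε : ℝ}
    (hε : 0 < ε) : dimH (Ex1 A ε) = 0 := by
  classical
  obtain ⟨c, hc, hev⟩ := hA
  obtain ⟨B, hB1, N₁, hsum⟩ := meanSq_bound hh hr
  obtain ⟨N₃, hN₃⟩ := eventually_atTop.1 hev
  have hh' : (1 : ℝ) ≤ h := by exact_mod_cast hh
  have hcard : ∀ N, N₃ ≤ N → c ^ 2 * (N : ℝ) ^ 2 ≤ ((seg A N).card : ℝ) ^ (2 * h) := by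
    intro N hN
    have h1 := hN₃ N hN
    rw [seg_card] at h1
    have h5 : (c * N) ^ 2 ≤ (((seg A N).card : ℝ) ^ h) ^ 2 := pow_le_pow_left₀ (by positivity) h1 2
    rw [mul_pow, ← pow_mul, mul_comm h 2] at h5
    exact h5
  -- the grid
  set τ := min 1 (ε ^ (2 * h) * c ^ 2 / (2 * h * B)) with hτ
  have hτ0 : 0 < τ := lt_min one_pos (by positivity)
  have hτ1 : τ ≤ 1 := min_le_left _ _
  have hτ2 : τ * (2 * h * B) ≤ ε ^ (2 * h) * c ^ 2 := by
    have := min_le_right (1 : ℝ) (ε ^ (2 * h) * c ^ 2 / (2 * h * B))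
    rwa [← hτ, le_div_iff₀ (by positivity)] at this
  set g : ℕ → ℕ := fun i => ⌈(1 + τ) ^ i⌉₊ with hg
  have hg1 : ∀ i, (1 + τ) ^ i ≤ g i := fun i => Nat.le_ceil _
  have hgpos : ∀ i, 1 ≤ g i := by
    intro i
    have h1 : (1 : ℝ) ≤ (1 + τ) ^ i := one_le_pow₀ (by linarith)
    have h2 : (1 : ℝ) ≤ g i := h1.trans (hg1 i)
    exact_mod_cast h2
  set N₂ := max N₁ N₃ with hN₂
  -- the number of intervals
  obtain ⟨J, hJ⟩ := exists_nat_ge (6 * (h + 1) * B / (ε ^ (2 * h) * c ^ 2))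
  rw [div_le_iff₀ (by positivity)] at hJ
  have hcov : ∀ i, ∃ f : Fin (3 * J) → ℝ, N₂ ≤ g i → ∀ x : ℝ, 0 ≤ x → x < 1 →
      ε * (seg A (g i)).card ≤ ‖Sf (ind (seg A (g i))) x‖ → ∃ j, |x - f j| ≤ 1 / (g i : ℝ) := by
    intro i
    by_cases hi : N₂ ≤ g i
    · set N := g i with hN
      have hi1 : N₁ ≤ N := (le_max_left _ _).trans hi
      have hi3 : N₃ ≤ N := (le_max_right _ _).trans hi
      have hNpos : (0 : ℝ) < N := by exact_mod_cast hgpos i
      have h1 := hcard N hi3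
      have hFpos : (0 : ℝ) < ((seg A N).card : ℝ) := by
        by_contra hneg
        have h2 : ((seg A N).card : ℝ) = 0 := le_antisymm (not_lt.1 hneg) (Nat.cast_nonneg _)
        rw [h2, zero_pow (by omega)] at h1
        have h3 : 0 < c ^ 2 * (N : ℝ) ^ 2 := by positivity
        linarith
      have hFne : (seg A N).Nonempty := Finset.card_pos.1 (by exact_mod_cast hFpos)
      have h2 : 6 * (h * N + (N : ℝ)) * ∑ n ∈ Icc 1 (h * N), (RF (seg A N) h n : ℝ) ^ 2 ≤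
          J * (ε * (seg A N).card) ^ (2 * h) := by
        calc 6 * (h * N + (N : ℝ)) * ∑ n ∈ Icc 1 (h * N), (RF (seg A N) h n : ℝ) ^ 2
            ≤ 6 * (h * N + (N : ℝ)) * (B * N) :=
              mul_le_mul_of_nonneg_left (hsum N hi1 (hgpos i)).1 (by positivity)
          _ = (6 * (h + 1) * B) * (N : ℝ) ^ 2 := by ring
          _ ≤ (J * (ε ^ (2 * h) * c ^ 2)) * (N : ℝ) ^ 2 :=
              mul_le_mul_of_nonneg_right hJ (by positivity)
          _ = J * ε ^ (2 * h) * (c ^ 2 * (N : ℝ) ^ 2) := by ring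
          _ ≤ J * ε ^ (2 * h) * ((seg A N).card : ℝ) ^ (2 * h) :=
              mul_le_mul_of_nonneg_left h1 (by positivity)
          _ = _ := by rw [mul_pow]; ring
      obtain ⟨C, hC1, hC2⟩ := spectrum_cover (hgpos i) (seg_sub A N) hh hε hFne J h2
      obtain ⟨f, hf⟩ := exists_enum C (3 * J) hC1
      refine ⟨f, fun _ x hx0 hx1 hx => ?_⟩
      obtain ⟨z, hz, hz'⟩ := hC2 x hx0 hx1 hx
      obtain ⟨j, rfl⟩ := hf z hz
      exact ⟨j, hz'⟩
    · exact ⟨fun _ => 0, fun h => absurd h hi⟩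
  choose C hC using hcov
  refine dimH_zero_of_covers (Ex1 A ε) (3 * J) C 1 (1 + τ)⁻¹ zero_le_one (by positivity)
    (inv_lt_one_of_one_lt₀ (by linarith)) ?_
  rintro x ⟨hx0, hx1, hx⟩
  rw [frequently_atTop]
  intro m
  obtain ⟨N₄, hN₄⟩ := exists_nat_gt ((1 + τ) ^ (m + 1))
  obtain ⟨N, hN, hNx⟩ := (frequently_atTop.1 hx) (max N₄ (2 * N₂ + 2))
  have hN4 : N₄ ≤ N := (le_max_left _ _).trans hN
  have hN1 : 2 * N₂ + 2 ≤ N := (le_max_right _ _).trans hN
  have hNr : (1 : ℝ) ≤ N := by exact_mod_cast (by omega : 1 ≤ N)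
  obtain ⟨i, hi1, hi2⟩ := exists_nat_pow_near hNr (by linarith : 1 < 1 + τ)
  have him : m ≤ i := by
    by_contra hcon
    have h1 : (1 + τ) ^ (i + 1) ≤ (1 + τ) ^ (m + 1) := pow_le_pow_right₀ (by linarith) (by omega)
    have h2 : (N₄ : ℝ) ≤ N := by exact_mod_cast hN4
    linarith
  have hgN : g i ≤ N := by
    rw [hg]
    exact Nat.ceil_le.2 hi1
  have hNg : (N : ℝ) < (1 + τ) * g i := by
    rw [pow_succ] at hi2
    have := hg1 i
    nlinarith
  have hgN₂ : N₂ ≤ g i := by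
    have h1 : (N : ℝ) < 2 * g i := by
      have h2 : (0 : ℝ) ≤ g i := Nat.cast_nonneg _
      nlinarith
    have h2 : N < 2 * g i := by exact_mod_cast h1
    omega
  refine ⟨i, him, ?_⟩
  have hGpos : (0 : ℝ) < g i := by exact_mod_cast hgpos i
  -- the increment
  have hinc : ((seg A N \ seg A (g i)).card : ℝ) ≤ ε * (seg A (g i)).card := by
    have h1 := increment A hh hgN
    have h2 := (hsum N ((le_max_left _ _).trans (hgN₂.trans hgN)) (by omega)).2
    have h3 : (h * (N - g i) : ℝ) ≤ h * (τ * g i) := by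
      apply mul_le_mul_of_nonneg_left _ (by positivity)
      linarith
    have h4 : ((seg A N \ seg A (g i)).card : ℝ) ^ (2 * h) ≤
        (ε * (seg A (g i)).card) ^ (2 * h) := by
      calc ((seg A N \ seg A (g i)).card : ℝ) ^ (2 * h)
          ≤ (h * (N - g i) : ℝ) *
            (((h : ℝ) ^ h) ^ 2 * ∑ n ∈ range (h * N + 1), (rep A h n : ℝ) ^ 2) := h1
        _ ≤ (h * (τ * g i)) * (B * N) := by
            apply mul_le_mul h3 h2 (by positivity) (by positivity)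
        _ ≤ (h * (τ * g i)) * (B * (2 * g i)) := by
            apply mul_le_mul_of_nonneg_left _ (by positivity)
            apply mul_le_mul_of_nonneg_left _ hB1.le
            nlinarith
        _ = (τ * (2 * h * B)) * (g i : ℝ) ^ 2 := by ring
        _ ≤ (ε ^ (2 * h) * c ^ 2) * (g i : ℝ) ^ 2 :=
            mul_le_mul_of_nonneg_right hτ2 (by positivity)
        _ = ε ^ (2 * h) * (c ^ 2 * (g i : ℝ) ^ 2) := by ring
        _ ≤ ε ^ (2 * h) * ((seg A (g i)).card : ℝ) ^ (2 * h) :=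
            mul_le_mul_of_nonneg_left (hcard (g i) ((le_max_right _ _).trans hgN₂))
              (by positivity)
        _ = _ := by rw [mul_pow]
    exact le_of_pow_le_pow_left₀ (by omega) (by positivity) h4
  have h1 := Sf_seg_le A hgN x
  have h2 : ((seg A (g i)).card : ℝ) ≤ (seg A N).card := by
    exact_mod_cast Finset.card_le_card (seg_mono A hgN)
  have h3 : ε * (seg A (g i)).card ≤ ‖Sf (ind (seg A (g i))) x‖ := by nlinarith
  obtain ⟨j, hj⟩ := hC i hgN₂ x hx0 hx1 h3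
  refine ⟨j, hj.trans ?_⟩
  rw [one_mul, inv_pow, ← one_div]
  exact one_div_le_one_div_of_le (by positivity) (hg1 i)

theorem ex_dim (A : Set ℕ) {h : ℕ} (hh : 1 ≤ h) (hA : ThickAll A h) (hr : MeanSq A h) {ε : ℝ}
    (hε : 0 < ε) : dimH (Ex A ε) = 0 := by
  have h1 : Ex A ε ⊆ ⋃ k : ℤ, (fun x : ℝ => x + k) '' Ex1 A ε := by
    intro x hx
    rw [Set.mem_iUnion]
    refine ⟨⌊x⌋, Int.fract x, ⟨Int.fract_nonneg x, Int.fract_lt_one x, ?_⟩, ?_⟩
    · refine Frequently.mono hx fun N hN => ?_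
      have h2 : Sf (ind (seg A N)) x = Sf (ind (seg A N)) (Int.fract x) := by
        conv_lhs => rw [← Int.fract_add_floor x]
        exact Sf_add_int _ _
      rw [← h2]
      exact hN
    · exact Int.fract_add_floor x
  rw [← nonpos_iff_eq_zero]
  refine (dimH_mono h1).trans ?_
  rw [dimH_iUnion]
  refine iSup_le fun k => ?_
  have h2 : LipschitzWith 1 (fun x : ℝ => x + (k : ℝ)) := by
    apply LipschitzWith.of_dist_le_mul
    intro x y
    simp
  exact (h2.dimH_image_le _).trans (ex1_dim A hh hA hr hε).le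

/-- **Uniform distribution outside a set of dimension zero.** -/
theorem ud_dim (A : Set ℕ) (hinf : A.Infinite) {h : ℕ} (hh : 1 ≤ h) (hA : ThickAll A h)
    (hr : MeanSq A h) : dimH {θ : ℝ | ¬ Pool.Agent.H84R3.UD (fun n => θ * en A n)} = 0 := by
  have h1 : {θ : ℝ | ¬ Pool.Agent.H84R3.UD (fun n => θ * en A n)} ⊆
      ⋃ p : ℕ × ℕ, (fun x : ℝ => (1 / ((p.1 : ℝ) + 1)) * x) '' Ex A (1 / ((p.2 : ℝ) + 1)) := by
    intro θ hθ
    obtain ⟨k, m, hk, h2⟩ := not_ud hinf θ hθ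
    rw [Set.mem_iUnion]
    refine ⟨(k - 1, m), k * θ, h2, ?_⟩
    simp only
    rw [Nat.cast_sub hk]
    have : (k : ℝ) ≠ 0 := by positivity
    push_cast
    rw [sub_add_cancel]
    field_simp
  rw [← nonpos_iff_eq_zero]
  refine (dimH_mono h1).trans ?_
  rw [dimH_iUnion]
  refine iSup_le fun p => ?_
  have hp0 : (0 : ℝ) ≤ 1 / ((p.1 : ℝ) + 1) := by positivity
  have hp1 : 1 / ((p.1 : ℝ) + 1) ≤ 1 := by
    rw [div_le_one (by positivity)]
    have : (0 : ℝ) ≤ p.1 := Nat.cast_nonneg _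
    linarith
  have h2 : LipschitzWith 1 (fun x : ℝ => (1 / ((p.1 : ℝ) + 1)) * x) := by
    apply LipschitzWith.of_dist_le_mul
    intro x y
    rw [Real.dist_eq, Real.dist_eq, ← mul_sub, abs_mul, abs_of_nonneg hp0, NNReal.coe_one]
    exact mul_le_mul_of_nonneg_right hp1 (abs_nonneg _)
  exact (h2.dimH_image_le _).trans (ex_dim A hh hA hr (by positivity)).le

/-- **Finitely many frequencies are not `η`-dense.** -/
theorem miss_finite (A : Set ℕ) {h : ℕ} (hh : 1 ≤ h) (hA : Thick A h) (hr : MeanSq A h) {η : ℝ}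
    (hη : 0 < η) : (Miss A η).Finite := by
  classical
  by_contra hinf
  obtain ⟨c, hc, hfreq⟩ := hA
  obtain ⟨B, hB1, N₁, hsum⟩ := meanSq_bound hh hr
  have hh' : (1 : ℝ) ≤ h := by exact_mod_cast hh
  obtain ⟨K, hK⟩ := exists_nat_gt (1 / η ^ 2)
  have hKpos : (0 : ℝ) < K := lt_trans (by positivity) hK
  obtain ⟨m, hm⟩ := exists_nat_gt ((K : ℝ) ^ 2 * (2 * K) ^ (2 * h) * (6 * (h + 1) * B) / c ^ 2)
  obtain ⟨W, hW1, hW2⟩ := (Set.not_finite.1 hinf).exists_subset_card_eq m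
  have hW01 : ∀ θ ∈ W, 0 ≤ θ ∧ θ < 1 := fun θ hθ => ⟨(hW1 hθ).1, (hW1 hθ).2.1⟩
  set R : Finset ℝ := (W ×ˢ range K).image (fun p => Int.fract ((p.2 : ℝ) * p.1)) with hR
  have hR01 : ∀ x ∈ R, 0 ≤ x ∧ x < 1 := by
    intro x hx
    obtain ⟨p, _, rfl⟩ := mem_image.1 hx
    exact ⟨Int.fract_nonneg _, Int.fract_lt_one _⟩
  obtain ⟨D, hD1, hD⟩ := exists_sep R hR01
  obtain ⟨N, hN1, hN2, hN3⟩ := (hfreq.and_eventually ((eventually_ge_atTop (D + 1)).and
    (eventually_ge_atTop N₁))).exists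
  have hN0 : 0 < N := by omega
  have hN' : (0 : ℝ) < N := by exact_mod_cast hN0
  have hDN : (D : ℝ) ≤ N := by exact_mod_cast (by omega : D ≤ N)
  rw [seg_card] at hN1
  set F := seg A N with hF
  have hFpos : (0 : ℝ) < F.card := by
    by_contra hneg
    have h2 : (F.card : ℝ) = 0 := le_antisymm (not_lt.1 hneg) (Nat.cast_nonneg _)
    rw [h2, zero_pow (by omega)] at hN1
    have h3 : 0 < c * (N : ℝ) := by positivity
    linarith
  have hFne : F.Nonempty := Finset.card_pos.1 (by exact_mod_cast hFpos)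
  have h4 : c ^ 2 * (N : ℝ) ^ 2 ≤ (F.card : ℝ) ^ (2 * h) := by
    have h5 : (c * N) ^ 2 ≤ ((F.card : ℝ) ^ h) ^ 2 := pow_le_pow_left₀ (by positivity) hN1 2
    rw [mul_pow, ← pow_mul, mul_comm h 2] at h5
    exact h5
  have hup : ∑ x ∈ R, ‖Sf (ind F) x‖ ^ (2 * h) ≤ 6 * (h + 1) * B * (N : ℝ) ^ 2 := by
    refine (moment_sep (seg_sub A N) hh D hD1 R hD).trans ?_
    have h1 := (hsum N hN3 hN0).1
    calc 6 * (h * N + (D : ℝ)) * ∑ n ∈ Icc 1 (h * N), (RF F h n : ℝ) ^ 2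
        ≤ 6 * (h * N + N) * (B * N) := by
          apply mul_le_mul _ h1 (Finset.sum_nonneg fun n _ => by positivity) (by positivity)
          linarith
      _ = _ := by ring
  -- lower bound
  have hone : ∀ θ ∈ W, ((F.card : ℝ) / (2 * K)) ^ (2 * h) ≤
      ∑ k ∈ Icc 1 (K - 1), ‖Sf (ind F) (Int.fract (k * θ))‖ ^ (2 * h) := by
    intro θ hθ
    obtain ⟨_, _, t, ht⟩ := hW1 hθ
    obtain ⟨k, hk1, hkK, hk⟩ := fejer_miss F hFne θ t η hη
      (fun a ha => ht a (mem_seg.1 ha).2) K hK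
    have h1 : ‖Sf (ind F) (Int.fract (k * θ))‖ ^ (2 * h) ≤
        ∑ k ∈ Icc 1 (K - 1), ‖Sf (ind F) (Int.fract (k * θ))‖ ^ (2 * h) :=
      Finset.single_le_sum (f := fun k : ℕ => ‖Sf (ind F) (Int.fract (k * θ))‖ ^ (2 * h))
        (fun k _ => by positivity) (mem_Icc.2 ⟨hk1, by omega⟩)
    refine le_trans ?_ h1
    have h2 : Sf (ind F) (Int.fract ((k : ℝ) * θ)) = Sf (ind F) (k * θ) := by
      conv_rhs => rw [← Int.fract_add_floor ((k : ℝ) * θ)]
      exact (Sf_add_int _ _).symm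
    rw [h2]
    exact pow_le_pow_left₀ (by positivity) hk _
  have hlow : (m : ℝ) * ((F.card : ℝ) / (2 * K)) ^ (2 * h) ≤
      (K : ℝ) ^ 2 * ∑ x ∈ R, ‖Sf (ind F) x‖ ^ (2 * h) := by
    calc (m : ℝ) * ((F.card : ℝ) / (2 * K)) ^ (2 * h)
        = ∑ θ ∈ W, ((F.card : ℝ) / (2 * K)) ^ (2 * h) := by
          rw [Finset.sum_const, nsmul_eq_mul, hW2]
      _ ≤ ∑ θ ∈ W, ∑ k ∈ Icc 1 (K - 1), ‖Sf (ind F) (Int.fract (k * θ))‖ ^ (2 * h) :=
          Finset.sum_le_sum hone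
      _ = ∑ k ∈ Icc 1 (K - 1), ∑ θ ∈ W, ‖Sf (ind F) (Int.fract (k * θ))‖ ^ (2 * h) :=
          Finset.sum_comm
      _ ≤ ∑ k ∈ Icc 1 (K - 1), (K : ℝ) * ∑ x ∈ R, ‖Sf (ind F) x‖ ^ (2 * h) := by
          refine Finset.sum_le_sum fun k hk => ?_
          rw [mem_Icc] at hk
          have h1 := sum_multiples W hW01 R k hk.1 (by
            intro θ hθ
            exact mem_image.2 ⟨(θ, k), mem_product.2 ⟨hθ, mem_range.2 (by omega)⟩, rfl⟩)
            (fun x => ‖Sf (ind F) x‖ ^ (2 * h)) (fun x => by positivity)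
          refine h1.trans (mul_le_mul_of_nonneg_right ?_
            (Finset.sum_nonneg fun x _ => by positivity))
          exact_mod_cast (by omega : k ≤ K)
      _ = ((Icc 1 (K - 1)).card : ℝ) * ((K : ℝ) * ∑ x ∈ R, ‖Sf (ind F) x‖ ^ (2 * h)) := by
          rw [Finset.sum_const, nsmul_eq_mul]
      _ ≤ K * ((K : ℝ) * ∑ x ∈ R, ‖Sf (ind F) x‖ ^ (2 * h)) := by
          apply mul_le_mul_of_nonneg_right
          · rw [Nat.card_Icc]
            exact_mod_cast (by omega : K - 1 + 1 - 1 ≤ K)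
          · exact mul_nonneg hKpos.le (Finset.sum_nonneg fun x _ => by positivity)
      _ = _ := by ring
  have h1 : (m : ℝ) * (c ^ 2 * (N : ℝ) ^ 2 / (2 * K) ^ (2 * h)) ≤
      (K : ℝ) ^ 2 * (6 * (h + 1) * B * (N : ℝ) ^ 2) := by
    calc (m : ℝ) * (c ^ 2 * (N : ℝ) ^ 2 / (2 * K) ^ (2 * h))
        ≤ m * ((F.card : ℝ) / (2 * K)) ^ (2 * h) := by
          apply mul_le_mul_of_nonneg_left _ (Nat.cast_nonneg _)
          rw [div_pow]
          exact div_le_div_of_nonneg_right h4 (by positivity)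
      _ ≤ _ := hlow
      _ ≤ _ := mul_le_mul_of_nonneg_left hup (by positivity)
  rw [div_lt_iff₀ (by positivity)] at hm
  have h2 : (m : ℝ) * (c ^ 2 * (N : ℝ) ^ 2 / (2 * K) ^ (2 * h)) =
      m * c ^ 2 * (N : ℝ) ^ 2 / (2 * K) ^ (2 * h) := by
    ring
  rw [h2, div_le_iff₀ (by positivity)] at h1
  have h3 : ((K : ℝ) ^ 2 * (2 * K) ^ (2 * h) * (6 * (h + 1) * B)) * (N : ℝ) ^ 2 <
      (m * c ^ 2) * (N : ℝ) ^ 2 := mul_lt_mul_of_pos_right hm (by positivity)
  have h5 : (K : ℝ) ^ 2 * (6 * (h + 1) * B * (N : ℝ) ^ 2) * (2 * K) ^ (2 * h) =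
      ((K : ℝ) ^ 2 * (2 * K) ^ (2 * h) * (6 * (h + 1) * B)) * (N : ℝ) ^ 2 := by ring
  linarith

/-- **`θ A` is dense modulo one for all but countably many `θ`.** -/
theorem dense_countable (A : Set ℕ) {h : ℕ} (hh : 1 ≤ h) (hA : Thick A h) (hr : MeanSq A h) :
    {θ : ℝ | ¬ Dense {x : ℝ | ∃ a ∈ A, ∃ z : ℤ, x = θ * a + z}}.Countable := by
  have h1 : {θ : ℝ | ¬ Dense {x : ℝ | ∃ a ∈ A, ∃ z : ℤ, x = θ * a + z}} ⊆
      ⋃ p : ℤ × ℕ, (fun x : ℝ => x + p.1) '' Miss A (1 / ((p.2 : ℝ) + 1)) := by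
    intro θ hθ
    rw [Set.mem_ofPred_eq, Metric.dense_iff] at hθ
    push Not at hθ
    obtain ⟨t, r, hr0, hempty⟩ := hθ
    obtain ⟨m, hm⟩ := exists_nat_one_div_lt hr0
    rw [Set.mem_iUnion]
    refine ⟨(⌊θ⌋, m), Int.fract θ, ⟨Int.fract_nonneg θ, Int.fract_lt_one θ, t, ?_⟩,
      Int.fract_add_floor θ⟩
    intro a ha z
    by_contra hcon
    push Not at hcon
    have h2 : (Int.fract θ * a - z : ℝ) ∈ Metric.ball t r ∩
        {x : ℝ | ∃ a ∈ A, ∃ z : ℤ, x = θ * a + z} := by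
      refine ⟨?_, a, ha, -⌊θ⌋ * a - z, ?_⟩
      · rw [Metric.mem_ball, Real.dist_eq]
        have h3 : Int.fract θ * a - z - t = Int.fract θ * a - t - z := by ring
        rw [h3]
        exact hcon.trans hm
      · have h3 : Int.fract θ = θ - ⌊θ⌋ := rfl
        rw [h3]
        push_cast
        ring
    rw [hempty] at h2
    exact h2
  refine Set.Countable.mono h1 (Set.countable_iUnion fun p => ?_)
  exact ((miss_finite A hh hA hr (by positivity)).image _).countable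

end Pool.Agent.TH314.ETH
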