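import Mathlib
import Pool.Agent.TH314.ETH.Spec

/-!
# Order `h`: the number of residue classes modulo `q`
-/

set_option autoImplicit false

open Finset Filter Topology

namespace Pool.Agent.TH314.ETH

open Pool.Agent.Helper112 Pool.Agent.TH314.ET

/-- one step -/
theorem thin_step (A : Set ℕ) {h : ℕ} (hh : 1 ≤ h) (R : Finset ℝ) {q : ℕ} (hq : 0 < q)
    (C : Finset ℕ) (hC : ∀ a ∈ A, a % q ∈ C) (hC0 : 0 < C.card)
    (hlarge : 2 * (C.card : ℝ) * R.card ≤ q) (F : Finset ℕ) (hF : ∀ a ∈ F, a ∈ A) :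
    q * (F.card : ℝ) ^ (2 * h) / (2 * C.card) ^ h ≤
      ∑ x ∈ ((range q).image (fun a : ℕ => (a : ℝ) / q)) \ R, ‖Sf (ind F) x‖ ^ (2 * h) := by
  classical
  set P := (range q).image (fun a : ℕ => (a : ℝ) / q) with hP
  have hq' : (0 : ℝ) < q := by exact_mod_cast hq
  have hCr : (0 : ℝ) < C.card := by exact_mod_cast hC0
  have hinj : Set.InjOn (fun a : ℕ => (a : ℝ) / q) (range q : Finset ℕ) := by
    intro a _ b _ hab
    have : (a : ℝ) = b := by
      have h := hab
      simp only at h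
      field_simp at h
      exact h
    exact_mod_cast this
  have hPc : (P.card : ℝ) ≤ q := by
    have : P.card ≤ (range q).card := Finset.card_image_le
    rw [card_range] at this
    exact_mod_cast this
  have h1 := sum_shift_ge (ind_summable F) q hq C
    (fun n hn => hC n (hF n (ne_zero_mem hn))) 0
  rw [Sf_ind_zero, Complex.norm_natCast] at h1
  have h2 : ∑ a ∈ range q, ‖Sf (ind F) (a / q + 0)‖ ^ 2 = ∑ x ∈ P, ‖Sf (ind F) x‖ ^ 2 := by
    rw [hP, Finset.sum_image hinj]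
    exact Finset.sum_congr rfl fun a _ => by rw [add_zero]
  rw [h2] at h1
  set f : ℝ := (F.card : ℝ) with hf
  have hf0 : 0 ≤ f := Nat.cast_nonneg _
  set ν : ℝ := (C.card : ℝ) with hν
  have h3 : q / ν * f ^ 2 ≤ ∑ x ∈ P, ‖Sf (ind F) x‖ ^ 2 := by
    rw [div_mul_eq_mul_div, div_le_iff₀ hCr, mul_comm (∑ x ∈ P, ‖Sf (ind F) x‖ ^ 2)]
    exact h1
  have h4 : ∑ x ∈ P ∩ R, ‖Sf (ind F) x‖ ^ 2 ≤ R.card * f ^ 2 := by
    calc ∑ x ∈ P ∩ R, ‖Sf (ind F) x‖ ^ 2 ≤ ∑ x ∈ P ∩ R, f ^ 2 :=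
          Finset.sum_le_sum fun x _ => pow_le_pow_left₀ (norm_nonneg _) (norm_Sf_ind_le F x) 2
      _ = ((P ∩ R).card : ℝ) * f ^ 2 := by rw [Finset.sum_const, nsmul_eq_mul]
      _ ≤ _ := by
          have : ((P ∩ R).card : ℝ) ≤ R.card := by
            exact_mod_cast Finset.card_le_card Finset.inter_subset_right
          exact mul_le_mul_of_nonneg_right this (by positivity)
  have h5 : ∑ x ∈ P, ‖Sf (ind F) x‖ ^ 2 =
      ∑ x ∈ P ∩ R, ‖Sf (ind F) x‖ ^ 2 + ∑ x ∈ P \ R, ‖Sf (ind F) x‖ ^ 2 :=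
    (Finset.sum_inter_add_sum_sdiff P R _).symm
  have h6 : q / (2 * ν) * f ^ 2 ≤ ∑ x ∈ P \ R, ‖Sf (ind F) x‖ ^ 2 := by
    have h7 : (R.card : ℝ) ≤ q / (2 * ν) := by
      rw [le_div_iff₀ (by positivity)]
      linarith
    have h8 : q / ν = q / (2 * ν) + q / (2 * ν) := by
      field_simp
      norm_num
    have h9 : (R.card : ℝ) * f ^ 2 ≤ q / (2 * ν) * f ^ 2 :=
      mul_le_mul_of_nonneg_right h7 (by positivity)
    rw [h8, add_mul] at h3
    linarith
  -- the power mean inequality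
  obtain ⟨k, rfl⟩ : ∃ k, h = k + 1 := ⟨h - 1, by omega⟩
  rcases (P \ R).eq_empty_or_nonempty with hemp | hne
  · rw [hemp, Finset.sum_empty] at h6 ⊢
    have h7 : f = 0 := by
      by_contra hne
      have hfp : 0 < f := lt_of_le_of_ne hf0 (Ne.symm hne)
      have : 0 < q / (2 * ν) * f ^ 2 := by positivity
      linarith
    rw [h7, zero_pow (by omega), mul_zero, zero_div]
  · have h7 := pow_sum_div_card_le_sum_pow (s := P \ R) (f := fun x : ℝ => ‖Sf (ind F) x‖ ^ 2)
      (fun x _ => by positivity) k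
    have hcard : (0 : ℝ) < ((P \ R).card : ℝ) := by exact_mod_cast Finset.card_pos.2 hne
    have hcq : ((P \ R).card : ℝ) ≤ q := by
      have : ((P \ R).card : ℝ) ≤ P.card := by
        exact_mod_cast Finset.card_le_card Finset.sdiff_subset
      linarith
    have h8 : ∑ x ∈ P \ R, (‖Sf (ind F) x‖ ^ 2) ^ (k + 1) =
        ∑ x ∈ P \ R, ‖Sf (ind F) x‖ ^ (2 * (k + 1)) :=
      Finset.sum_congr rfl fun x _ => by rw [← pow_mul]
    rw [h8] at h7
    refine le_trans ?_ h7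
    rw [le_div_iff₀ (by positivity)]
    have h9 : (q / (2 * ν) * f ^ 2) ^ (k + 1) ≤ (∑ x ∈ P \ R, ‖Sf (ind F) x‖ ^ 2) ^ (k + 1) :=
      pow_le_pow_left₀ (by positivity) h6 _
    refine le_trans ?_ h9
    calc q * f ^ (2 * (k + 1)) / (2 * ν) ^ (k + 1) * ((P \ R).card : ℝ) ^ k
        ≤ q * f ^ (2 * (k + 1)) / (2 * ν) ^ (k + 1) * (q : ℝ) ^ k := by
          apply mul_le_mul_of_nonneg_left _ (by positivity)
          exact pow_le_pow_left₀ hcard.le hcq k
      _ = (q / (2 * ν) * f ^ 2) ^ (k + 1) := by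
          have e1 : (q / (2 * ν) * f ^ 2) ^ (k + 1) =
              (q : ℝ) ^ (k + 1) / (2 * ν) ^ (k + 1) * f ^ (2 * (k + 1)) := by
            rw [mul_pow (q / (2 * ν)) (f ^ 2), div_pow (q : ℝ) (2 * ν), ← pow_mul f 2 (k + 1)]
          rw [e1, pow_succ (q : ℝ) k]
          ring

/-- infinitely many thin moduli: the moments are large -/
theorem thin_moment (A : Set ℕ) (hA : A.Nonempty) {h : ℕ} (hh : 2 ≤ h) (T : ℝ) (hT : 0 < T)
    (hthin : ∀ Q : ℕ, ∃ q, Q ≤ q ∧ (res A q : ℝ) ^ h ≤ T * q) (m : ℕ) :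
    ∃ R : Finset ℝ, (∀ x ∈ R, 0 ≤ x ∧ x < 1) ∧ ∀ F : Finset ℕ, (∀ a ∈ F, a ∈ A) →
      m * ((F.card : ℝ) ^ (2 * h) / (2 ^ h * T)) ≤ ∑ x ∈ R, ‖Sf (ind F) x‖ ^ (2 * h) := by
  classical
  induction m with
  | zero =>
    refine ⟨∅, by simp, fun F _ => by simp⟩
  | succ m ih =>
    obtain ⟨R, hR, hRF⟩ := ih
    obtain ⟨Q, hQ⟩ := exists_nat_gt ((2 * (R.card : ℝ)) ^ h * T)
    obtain ⟨q, hqQ, hq⟩ := hthin (Q + 1)
    have hq0 : 0 < q := by omega
    have hq' : (0 : ℝ) < q := by exact_mod_cast hq0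
    have hq1 : (1 : ℝ) ≤ q := by exact_mod_cast hq0
    have hfin := res_finite A hq0
    have hcard : hfin.toFinset.card = res A q := (Set.ncard_eq_toFinset_card _ hfin).symm
    have hpos : 0 < hfin.toFinset.card := by
      rw [Finset.card_pos]
      obtain ⟨a, ha⟩ := hA
      exact ⟨a % q, hfin.mem_toFinset.2 ⟨a, ha, rfl⟩⟩
    have hlarge : 2 * (hfin.toFinset.card : ℝ) * R.card ≤ q := by
      rw [hcard]
      have h1 : (2 * (res A q : ℝ) * R.card) ^ h ≤ (q : ℝ) ^ h := by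
        calc (2 * (res A q : ℝ) * R.card) ^ h = (2 * (R.card : ℝ)) ^ h * (res A q : ℝ) ^ h := by
              rw [← mul_pow]
              congr 1
              ring
          _ ≤ (2 * (R.card : ℝ)) ^ h * (T * q) := mul_le_mul_of_nonneg_left hq (by positivity)
          _ = ((2 * (R.card : ℝ)) ^ h * T) * q := by ring
          _ ≤ q * q := by
              apply mul_le_mul_of_nonneg_right _ hq'.le
              have : (Q : ℝ) ≤ q := by exact_mod_cast (by omega : Q ≤ q)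
              linarith
          _ = (q : ℝ) ^ 2 := by ring
          _ ≤ (q : ℝ) ^ h := pow_le_pow_right₀ hq1 hh
      exact le_of_pow_le_pow_left₀ (by omega) hq'.le h1
    refine ⟨R ∪ (((range q).image (fun a : ℕ => (a : ℝ) / q)) \ R), ?_, fun F hF => ?_⟩
    · intro x hx
      rcases Finset.mem_union.1 hx with h | h
      · exact hR x h
      · obtain ⟨a, ha, rfl⟩ := Finset.mem_image.1 (Finset.mem_sdiff.1 h).1
        have ha' : (a : ℝ) < q := by exact_mod_cast mem_range.1 ha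
        exact ⟨by positivity, by rw [div_lt_one hq']; exact ha'⟩
    · rw [Finset.sum_union Finset.disjoint_sdiff]
      have h1 := thin_step A (by omega : 1 ≤ h) R hq0 hfin.toFinset
        (fun a ha => hfin.mem_toFinset.2 ⟨a, ha, rfl⟩) hpos hlarge F hF
      have h2 := hRF F hF
      have h3 : (F.card : ℝ) ^ (2 * h) / (2 ^ h * T) ≤
          q * (F.card : ℝ) ^ (2 * h) / (2 * (hfin.toFinset.card : ℝ)) ^ h := by
        rw [hcard]
        have hrp : (0 : ℝ) < res A q := by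
          rw [← hcard]
          exact_mod_cast hpos
        rw [div_le_div_iff₀ (by positivity) (by positivity), mul_pow]
        calc (F.card : ℝ) ^ (2 * h) * (2 ^ h * (res A q : ℝ) ^ h)
            ≤ (F.card : ℝ) ^ (2 * h) * (2 ^ h * (T * q)) := by
              apply mul_le_mul_of_nonneg_left _ (by positivity)
              exact mul_le_mul_of_nonneg_left hq (by positivity)
          _ = _ := by ring
      push_cast
      linarith

/-- **The number of residue classes.** -/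
theorem res_tendsto (A : Set ℕ) {h : ℕ} (hh : 2 ≤ h) (hA : Thick A h) (hr : MeanSq A h) :
    Tendsto (fun q : ℕ => (res A q : ℝ) ^ h / q) atTop atTop := by
  classical
  obtain ⟨c, hc, hfreq⟩ := hA
  obtain ⟨B, hB1, N₁, hsum⟩ := meanSq_bound (by omega : 1 ≤ h) hr
  rw [tendsto_atTop]
  intro b
  by_contra hcon
  rw [not_eventually] at hcon
  set T := max b 1 with hT
  have hT0 : 0 < T := lt_of_lt_of_le one_pos (le_max_right _ _)
  have hne : A.Nonempty := by
    obtain ⟨N, hN1, hN2⟩ := (hfreq.and_eventually (eventually_ge_atTop 1)).exists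
    by_contra h1
    rw [Set.not_nonempty_iff_eq_empty] at h1
    subst h1
    simp only [Set.empty_inter, Set.ncard_empty, Nat.cast_zero] at hN1
    rw [zero_pow (by omega)] at hN1
    have : (0 : ℝ) < N := by exact_mod_cast hN2
    have h2 : 0 < c * (N : ℝ) := by positivity
    linarith
  have hthin : ∀ Q : ℕ, ∃ q, Q ≤ q ∧ (res A q : ℝ) ^ h ≤ T * q := by
    intro Q
    obtain ⟨q, hq1, hq2⟩ := (frequently_atTop.1 hcon) (Q + 1)
    refine ⟨q, by omega, ?_⟩
    push Not at hq2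
    have hq' : (0 : ℝ) < q := by exact_mod_cast (by omega : 0 < q)
    rw [div_lt_iff₀ hq'] at hq2
    exact hq2.le.trans (mul_le_mul_of_nonneg_right (le_max_left _ _) hq'.le)
  obtain ⟨m, hm⟩ := exists_nat_gt (6 * (h + 1) * B * (2 ^ h * T) / c ^ 2)
  obtain ⟨R, hR, hRF⟩ := thin_moment A hne hh T hT0 hthin m
  obtain ⟨D, hD1, hD⟩ := exists_sep R hR
  obtain ⟨N, hN1, hN2, hN3⟩ := (hfreq.and_eventually ((eventually_ge_atTop (D + 1)).and
    (eventually_ge_atTop N₁))).exists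
  have hN0 : 0 < N := by omega
  have hN' : (0 : ℝ) < N := by exact_mod_cast hN0
  have hDN : (D : ℝ) ≤ N := by exact_mod_cast (by omega : D ≤ N)
  rw [seg_card] at hN1
  have h1 := hRF (seg A N) (fun a ha => (mem_seg.1 ha).2)
  have h2 := moment_sep (seg_sub A N) (by omega : 1 ≤ h) D hD1 R hD
  have h4 : c ^ 2 * (N : ℝ) ^ 2 ≤ ((seg A N).card : ℝ) ^ (2 * h) := by
    have h5 : (c * N) ^ 2 ≤ (((seg A N).card : ℝ) ^ h) ^ 2 :=
      pow_le_pow_left₀ (by positivity) hN1 2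
    rw [mul_pow, ← pow_mul, mul_comm h 2] at h5
    exact h5
  have h5 : (m : ℝ) * ((c ^ 2 * (N : ℝ) ^ 2) / (2 ^ h * T)) ≤ 6 * (h + 1) * B * (N : ℝ) ^ 2 := by
    calc (m : ℝ) * ((c ^ 2 * (N : ℝ) ^ 2) / (2 ^ h * T))
        ≤ m * (((seg A N).card : ℝ) ^ (2 * h) / (2 ^ h * T)) := by
          apply mul_le_mul_of_nonneg_left _ (Nat.cast_nonneg _)
          exact div_le_div_of_nonneg_right h4 (by positivity)
      _ ≤ _ := h1
      _ ≤ _ := h2
      _ ≤ 6 * (h * N + N) * (B * N) := by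
          apply mul_le_mul _ (hsum N hN3 hN0).1 (Finset.sum_nonneg fun n _ => by positivity)
            (by positivity)
          linarith
      _ = _ := by ring
  rw [div_lt_iff₀ (by positivity)] at hm
  have h8 : (m : ℝ) * ((c ^ 2 * (N : ℝ) ^ 2) / (2 ^ h * T)) =
      (m * c ^ 2) * (N : ℝ) ^ 2 / (2 ^ h * T) := by ring
  rw [h8, div_le_iff₀ (by positivity)] at h5
  have h9 : (6 * (h + 1) * B * (2 ^ h * T)) * (N : ℝ) ^ 2 < (m * c ^ 2) * (N : ℝ) ^ 2 :=
    mul_lt_mul_of_pos_right hm (by positivity)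
  have h10 : 6 * (h + 1) * B * (N : ℝ) ^ 2 * (2 ^ h * T) =
      (6 * (h + 1) * B * (2 ^ h * T)) * (N : ℝ) ^ 2 := by ring
  linarith

/-! ### Hypotheses -/

/-- `A` is an asymptotic basis of order `h` -/
def IsBasis (A : Set ℕ) (h : ℕ) : Prop := ∃ n₀ : ℕ, ∀ n, n₀ ≤ n →
  ∃ s : Multiset ℕ, Multiset.card s = h ∧ (∀ a ∈ s, a ∈ A) ∧ s.sum = n

/-- `A` is infinite and `a_n ≤ C n ^ h` for all `n ≥ 1`, where `a_1 < a_2 < ...` are the elements
of `A` -/
def Growth (A : Set ℕ) (h : ℕ) : Prop :=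
  A.Infinite ∧ ∃ C : ℝ, ∀ n : ℕ, 1 ≤ n → (Nat.nth (· ∈ A) (n - 1) : ℝ) ≤ C * (n : ℝ) ^ h

theorem thickAll_of_basis (A : Set ℕ) {h : ℕ} (hh : 1 ≤ h) (hA : IsBasis A h) :
    ThickAll A h := by
  classical
  obtain ⟨n₀, hn₀⟩ := hA
  refine ⟨1 / (2 * 4 ^ h), by positivity, ?_⟩
  filter_upwards [eventually_ge_atTop (2 * n₀ + 2 * 4 ^ h + 1)] with N hN
  set G : Finset ℕ := insert 0 (seg A N) with hG
  -- every `n` in `[n₀, N]` is the sum of a tuple of elements of `G`
  have h1 : ∀ n : ℕ, ∃ v : Fin h → ℕ, n₀ ≤ n → n ≤ N → v ∈ tup G h ∧ ∑ i, v i = n := by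
    intro n
    by_cases hn : n₀ ≤ n ∧ n ≤ N
    · obtain ⟨s, hs1, hs2, hs3⟩ := hn₀ n hn.1
      obtain ⟨l, rfl⟩ : ∃ l : List ℕ, (l : Multiset ℕ) = s := ⟨s.toList, Multiset.coe_toList s⟩
      have hl : l.length = h := by simpa using hs1
      subst hl
      refine ⟨fun i => l.get i, fun _ _ => ⟨?_, ?_⟩⟩
      · rw [tup, Fintype.mem_piFinset]
        intro i
        have h2 : l.get i ∈ A := hs2 _ (Multiset.mem_coe.2 (List.get_mem l i))
        have h3 : l.get i ≤ n := by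
          rw [← hs3]
          exact Multiset.le_sum_of_mem (Multiset.mem_coe.2 (List.get_mem l i))
        rcases Nat.eq_zero_or_pos (l.get i) with h4 | h4
        · rw [h4]; exact mem_insert_self _ _
        · exact mem_insert_of_mem (mem_seg.2 ⟨⟨h4, h3.trans hn.2⟩, h2⟩)
      · have h2 := toM_sum (fun i : Fin l.length => l.get i)
        rw [← h2, ← hs3]
        unfold toM
        have h3 : ((Finset.univ : Finset (Fin l.length)).val.map (fun i => l.get i)) =
            (((List.finRange l.length).map (fun i => l.get i) : List ℕ) : Multiset ℕ) := rfl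
        rw [h3]
        exact congrArg Multiset.sum (congrArg _ (List.map_get_finRange l))
    · exact ⟨fun _ => 0, fun h2 h3 => absurd ⟨h2, h3⟩ hn⟩
  choose f hf using h1
  have h2 : N + 1 - n₀ ≤ G.card ^ h := by
    have h3 : (Icc n₀ N).image f ⊆ tup G h := by
      intro v hv
      obtain ⟨n, hn, rfl⟩ := mem_image.1 hv
      rw [mem_Icc] at hn
      exact (hf n hn.1 hn.2).1
    have h4 := Finset.card_le_card h3
    rw [tup, Fintype.card_piFinset_const, Finset.card_image_of_injOn, Nat.card_Icc] at h4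
    · exact h4
    · intro a ha b hb hab
      rw [Finset.mem_coe, mem_Icc] at ha hb
      rw [← (hf a ha.1 ha.2).2, ← (hf b hb.1 hb.2).2, hab]
  have h3 : G.card ≤ (seg A N).card + 1 := Finset.card_insert_le _ _
  have h4 : N ≤ 2 * ((seg A N).card + 1) ^ h := by
    have h5 : G.card ^ h ≤ ((seg A N).card + 1) ^ h := Nat.pow_le_pow_left h3 h
    omega
  have h5 : 1 ≤ (seg A N).card := by
    by_contra hcon
    have h6 : (seg A N).card = 0 := by omega
    rw [h6] at h4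
    simp only [zero_add, one_pow, mul_one] at h4
    have : 1 ≤ 4 ^ h := Nat.one_le_pow _ _ (by norm_num)
    omega
  have h6 : ((seg A N).card + 1) ^ h ≤ (2 * (seg A N).card) ^ h :=
    Nat.pow_le_pow_left (by omega) h
  rw [seg_card]
  have h7 : N ≤ 2 * (2 * (seg A N).card) ^ h := by omega
  have h8 : (N : ℝ) ≤ 2 * (2 * ((seg A N).card : ℝ)) ^ h := by exact_mod_cast h7
  rw [mul_pow] at h8
  have h9 : (2 : ℝ) ^ h ≤ 4 ^ h := pow_le_pow_left₀ (by norm_num) (by norm_num) h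
  rw [div_mul_eq_mul_div, one_mul, div_le_iff₀ (by positivity)]
  calc (N : ℝ) ≤ 2 * (2 ^ h * ((seg A N).card : ℝ) ^ h) := h8
    _ ≤ 2 * (4 ^ h * ((seg A N).card : ℝ) ^ h) := by
        apply mul_le_mul_of_nonneg_left _ (by norm_num)
        exact mul_le_mul_of_nonneg_right h9 (by positivity)
    _ = _ := by ring

theorem thickAll_of_growth (A : Set ℕ) {h : ℕ} (hh : 1 ≤ h) (hA : Growth A h) :
    ThickAll A h := by
  classical
  obtain ⟨hinf, C, hC⟩ := hA
  set D : ℝ := max C 1 with hD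
  have hD1 : 1 ≤ D := le_max_right _ _
  have hD0 : 0 < D := by linarith
  refine ⟨1 / (4 ^ h * D), by positivity, ?_⟩
  obtain ⟨B, hB⟩ := exists_nat_gt (4 ^ h * D)
  filter_upwards [eventually_ge_atTop B] with N hN
  have hN' : 4 ^ h * D ≤ N := hB.le.trans (by exact_mod_cast hN)
  have hN0 : (0 : ℝ) < N := lt_of_lt_of_le (by positivity) hN'
  -- the largest `j` with `D j ^ h ≤ N`
  set y : ℝ := ((N : ℝ) / D) ^ (1 / (h : ℝ)) with hy
  have hh' : (0 : ℝ) < h := by exact_mod_cast hh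
  have hy0 : 0 ≤ y := by positivity
  have hyh : y ^ h = N / D := by
    rw [hy, ← Real.rpow_natCast, ← Real.rpow_mul (by positivity), one_div_mul_cancel hh'.ne',
      Real.rpow_one]
  have hy4 : 4 ≤ y := by
    have h1 : (4 : ℝ) ^ h ≤ y ^ h := by
      rw [hyh, le_div_iff₀ hD0]
      exact hN'
    exact le_of_pow_le_pow_left₀ (by omega) hy0 h1
  set j := ⌊y⌋₊ with hj
  have hjy : (j : ℝ) ≤ y := Nat.floor_le hy0
  have hyj : y < j + 1 := Nat.lt_floor_add_one y
  have h1 : ∀ i, i < j → Nat.nth (· ∈ A) i ≤ N := by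
    intro i hi
    have h2 := hC (i + 1) (by omega)
    rw [Nat.add_sub_cancel] at h2
    have h3 : ((i + 1 : ℕ) : ℝ) ≤ y := by
      have : ((i + 1 : ℕ) : ℝ) ≤ j := by exact_mod_cast hi
      linarith
    have h4 : C * ((i + 1 : ℕ) : ℝ) ^ h ≤ N := by
      calc C * ((i + 1 : ℕ) : ℝ) ^ h ≤ D * ((i + 1 : ℕ) : ℝ) ^ h :=
            mul_le_mul_of_nonneg_right (le_max_left _ _) (by positivity)
        _ ≤ D * y ^ h := by
            apply mul_le_mul_of_nonneg_left _ hD0.le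
            exact pow_le_pow_left₀ (Nat.cast_nonneg _) h3 h
        _ = N := by
            rw [hyh]
            field_simp
    exact_mod_cast h2.trans h4
  have h2 : j ≤ (seg A N).card + 1 := by
    have h3 : ((Finset.range j).image (Nat.nth (· ∈ A))) ⊆ insert 0 (seg A N) := by
      intro a ha
      obtain ⟨i, hi, rfl⟩ := Finset.mem_image.1 ha
      rw [mem_range] at hi
      have h4 : Nat.nth (· ∈ A) i ∈ A := Nat.nth_mem_of_infinite (p := fun x => x ∈ A) hinf i
      rcases Nat.eq_zero_or_pos (Nat.nth (· ∈ A) i) with h | h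
      · rw [h]; exact mem_insert_self _ _
      · exact mem_insert_of_mem (mem_seg.2 ⟨⟨h, h1 i hi⟩, h4⟩)
    have h4 := (Finset.card_le_card h3).trans (Finset.card_insert_le _ _)
    rwa [Finset.card_image_of_injective _ (Nat.nth_injective (p := fun x => x ∈ A) hinf),
      Finset.card_range] at h4
  rw [seg_card]
  have h3 : (j : ℝ) ≤ ((seg A N).card : ℝ) + 1 := by exact_mod_cast h2
  have h4 : y / 4 ≤ ((seg A N).card : ℝ) := by linarith
  calc 1 / (4 ^ h * D) * N = (y / 4) ^ h := by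
        rw [div_pow, hyh]
        field_simp
    _ ≤ _ := pow_le_pow_left₀ (by positivity) h4 h

theorem infinite_of_basis (A : Set ℕ) {h : ℕ} (hA : IsBasis A h) : A.Infinite := by
  intro hfin
  obtain ⟨n₀, hn₀⟩ := hA
  obtain ⟨b, hb⟩ := hfin.bddAbove
  obtain ⟨s, hs1, hs2, hs3⟩ := hn₀ (max n₀ (h * b + 1)) (le_max_left _ _)
  have h1 : s.sum ≤ Multiset.card s • b := Multiset.sum_le_card_nsmul s b fun a ha => hb (hs2 a ha)
  rw [hs1, hs3, smul_eq_mul] at h1
  have h2 := le_max_right n₀ (h * b + 1)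
  omega

theorem meanSq_of_bounded (A : Set ℕ) (h : ℕ) (hr : ∃ K : ℕ, ∀ n, rep A h n ≤ K) :
    MeanSq A h := by
  obtain ⟨K, hK⟩ := hr
  refine ⟨(K : ℝ) ^ 2, Eventually.of_forall fun N => ?_⟩
  have h1 : ∑ n ∈ range N, (rep A h n : ℝ) ^ 2 ≤ ∑ n ∈ range N, (K : ℝ) ^ 2 :=
    Finset.sum_le_sum fun n _ => pow_le_pow_left₀ (Nat.cast_nonneg _)
      (by exact_mod_cast hK n) 2
  rw [Finset.sum_const, card_range, nsmul_eq_mul] at h1
  linarith

end Pool.Agent.TH314.ETH
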